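import Pool.Agent.Q61.DP.Stm

/-!
# DP-15: intersections of three caps are connected
-/

namespace Pool.Agent.Q208.DP

open Pool.Agent.Q61.DP Set

theorem conv_lt_iff {v n : E3} {r : ℝ} (hv : v ≠ 0) (hn : n ≠ 0) (h0 : 0 < r)
    (h1 : r ≤ Real.pi / 2) :
    InnerProductGeometry.angle v n < r ↔ ‖v‖ * ‖n‖ * Real.cos r < inner ℝ v n := by
  have hv' : 0 < ‖v‖ := norm_pos_iff.2 hv
  have hn' : 0 < ‖n‖ := norm_pos_iff.2 hn
  have hp := Real.pi_pos
  rw [← InnerProductGeometry.cos_angle_mul_norm_mul_norm v n]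
  have h2 : ‖v‖ * ‖n‖ * Real.cos r < Real.cos (InnerProductGeometry.angle v n) * (‖v‖ * ‖n‖) ↔
      Real.cos r < Real.cos (InnerProductGeometry.angle v n) := by
    rw [mul_comm (‖v‖ * ‖n‖)]
    exact mul_lt_mul_iff_left₀ (by positivity)
  rw [h2]
  constructor
  · intro h
    exact Real.cos_lt_cos_of_nonneg_of_le_pi (InnerProductGeometry.angle_nonneg _ _)
      (by linarith) h
  · intro h
    by_contra hc
    push Not at hc
    exact absurd (Real.cos_le_cos_of_nonneg_of_le_pi h0.le (InnerProductGeometry.angle_le_pi _ _)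
      hc) (not_le.2 h)

/-- The open cone over a cap. -/
def cone (n : E3) (r : ℝ) : Set E3 := {v | ‖v‖ * ‖n‖ * Real.cos r < inner ℝ v n}

theorem cone_convex (n : E3) (r : ℝ) (h0 : 0 < r) (h1 : r ≤ Real.pi / 2) :
    Convex ℝ (cone n r) := by
  intro x hx y hy a b ha hb hab
  simp only [cone, mem_ofPred_eq] at hx hy ⊢
  have hc : 0 ≤ Real.cos r := Real.cos_nonneg_of_neg_pi_div_two_le_of_le
    (by have := Real.pi_pos; linarith) h1
  have hs : ‖a • x + b • y‖ ≤ a * ‖x‖ + b * ‖y‖ := by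
    refine (norm_add_le _ _).trans (le_of_eq ?_)
    rw [norm_smul, norm_smul, Real.norm_of_nonneg ha, Real.norm_of_nonneg hb]
  have h3 : ‖a • x + b • y‖ * ‖n‖ * Real.cos r ≤ (a * ‖x‖ + b * ‖y‖) * ‖n‖ * Real.cos r := by
    gcongr
  refine lt_of_le_of_lt h3 ?_
  rw [inner_add_left, real_inner_smul_left, real_inner_smul_left]
  rcases ha.eq_or_lt with h | h
  · subst h
    have : b = 1 := by linarith
    subst this
    linarith
  · nlinarith [mul_le_mul_of_nonneg_left hy.le hb, mul_lt_mul_of_pos_left hx h]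

theorem capA_empty {n : E3} {r : ℝ} (h : r ≤ 0) : capA n r = ∅ := by
  ext w
  simp only [capA, mem_ofPred_eq, mem_empty_iff_false, iff_false, not_and, not_lt]
  intro _
  exact h.trans (InnerProductGeometry.angle_nonneg _ _)

theorem capA_cone {n w : E3} {r : ℝ} (h0 : 0 < r) (h1 : r ≤ Real.pi / 2) (hw : ‖w‖ = 1) :
    w ∈ capA n r ↔ w ∈ cone n r := by
  simp only [capA, cone, mem_ofPred_eq, hw, true_and]
  by_cases hn : n = 0
  · subst hn
    simp [h1]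
  · have := conv_lt_iff (v := w) (n := n) (by rintro rfl; simp at hw) hn h0 h1
    rw [hw] at this
    exact this

theorem cone_ne {n v : E3} {r : ℝ} (h : v ∈ cone n r) : v ≠ 0 := by
  rintro rfl
  simp [cone] at h

theorem cone_smul {n v : E3} {r c : ℝ} (hc : 0 < c) (h : v ∈ cone n r) : c • v ∈ cone n r := by
  simp only [cone, mem_ofPred_eq] at h ⊢
  rw [norm_smul, Real.norm_of_nonneg hc.le, real_inner_smul_left]
  nlinarith

/-- DP-15. -/
theorem sconv : S_CONV := by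
  intro n₁ n₂ n₃ r₁ r₂ r₃ h₁ h₂ h₃
  by_cases p₁ : r₁ ≤ 0
  · rw [capA_empty p₁]; simpa using isPreconnected_empty
  by_cases p₂ : r₂ ≤ 0
  · rw [capA_empty p₂]; simpa using isPreconnected_empty
  by_cases p₃ : r₃ ≤ 0
  · rw [capA_empty p₃]; simpa using isPreconnected_empty
  push Not at p₁ p₂ p₃
  have hC : Convex ℝ (cone n₁ r₁ ∩ cone n₂ r₂ ∩ cone n₃ r₃) :=
    ((cone_convex _ _ p₁ h₁).inter (cone_convex _ _ p₂ h₂)).inter (cone_convex _ _ p₃ h₃)
  have hE : capA n₁ r₁ ∩ capA n₂ r₂ ∩ capA n₃ r₃ =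
      (fun v : E3 => ‖v‖⁻¹ • v) '' (cone n₁ r₁ ∩ cone n₂ r₂ ∩ cone n₃ r₃) := by
    ext w
    constructor
    · rintro ⟨⟨a, b⟩, c⟩
      have hw : ‖w‖ = 1 := a.1
      refine ⟨w, ⟨⟨(capA_cone p₁ h₁ hw).1 a, (capA_cone p₂ h₂ hw).1 b⟩,
        (capA_cone p₃ h₃ hw).1 c⟩, ?_⟩
      simp [hw]
    · rintro ⟨v, ⟨⟨a, b⟩, c⟩, rfl⟩
      have hv : 0 < ‖v‖ := norm_pos_iff.2 (cone_ne a)
      have hw : ‖‖v‖⁻¹ • v‖ = 1 := by
        rw [norm_smul, norm_inv, norm_norm, inv_mul_cancel₀ hv.ne']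
      exact ⟨⟨(capA_cone p₁ h₁ hw).2 (cone_smul (inv_pos.2 hv) a),
        (capA_cone p₂ h₂ hw).2 (cone_smul (inv_pos.2 hv) b)⟩,
        (capA_cone p₃ h₃ hw).2 (cone_smul (inv_pos.2 hv) c)⟩
  rw [hE]
  have hco : ContinuousOn (fun v : E3 => ‖v‖⁻¹) (cone n₁ r₁ ∩ cone n₂ r₂ ∩ cone n₃ r₃) := by
    refine ContinuousOn.inv₀ continuous_norm.continuousOn ?_
    rintro v ⟨⟨a, -⟩, -⟩
    exact (norm_pos_iff.2 (cone_ne a)).ne'
  exact hC.isPreconnected.image _ (hco.smul continuousOn_id)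

end Pool.Agent.Q208.DP
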