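import Pool.Agent.Q61.DP.Stm

/-! Project DP, job DP-1: the Weyl lemma for the Cauchy-Riemann operator. -/

set_option autoImplicit false
set_option linter.all false

namespace Pool.Agent.Q208.DP

open Pool.Agent.Q61.DP MeasureTheory Filter Topology Metric
open scoped ContDiff Convolution

/-- the bump functions -/
noncomputable def bu (n : ℕ) : ContDiffBump (0 : ℂ) where
  rIn := 1 / (2 * ((n : ℝ) + 1))
  rOut := 1 / ((n : ℝ) + 1)
  rIn_pos := by positivity
  rIn_lt_rOut := by
    refine one_div_lt_one_div_of_lt (by positivity) ?_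
    have : (0 : ℝ) < (n : ℝ) + 1 := by positivity
    linarith

/-- the complex valued mollifier -/
noncomputable def mo (n : ℕ) (t : ℂ) : ℂ := (((bu n).normed (volume : Measure ℂ) t : ℝ) : ℂ)

theorem mo_cd (n : ℕ) : ContDiff ℝ ∞ (mo n) :=
  Complex.ofRealCLM.contDiff.comp ((bu n).contDiff_normed (n := ⊤))

theorem mo_cs (n : ℕ) : HasCompactSupport (mo n) :=
  ((bu n).hasCompactSupport_normed (μ := (volume : Measure ℂ))).comp_left Complex.ofReal_zero

/-- the mollified function -/
noncomputable def mf (φ : ℂ → ℂ) (n : ℕ) : ℂ → ℂ :=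
  φ ⋆[ContinuousLinearMap.mul ℝ ℂ, (volume : Measure ℂ)] (mo n)

theorem mf_swap (φ : ℂ → ℂ) (n : ℕ) (x : ℂ) :
    mf φ n x = ((bu n).normed (volume : Measure ℂ) ⋆[ContinuousLinearMap.lsmul ℝ ℝ, (volume : Measure ℂ)] φ :
      ℂ → ℂ) x := by
  unfold mf
  rw [MeasureTheory.convolution_eq_swap, MeasureTheory.convolution_def]
  refine integral_congr_ae (Eventually.of_forall fun t => ?_)
  show φ (x - t) * mo n t = ((bu n).normed (volume : Measure ℂ) t) • φ (x - t)
  unfold mo
  rw [Complex.real_smul, mul_comm]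

theorem mf_dist (φ : ℂ → ℂ) (hφ : Continuous φ) (n : ℕ) (x : ℂ) (ε : ℝ)
    (h : ∀ y ∈ ball x (1 / ((n : ℝ) + 1)), dist (φ y) (φ x) ≤ ε) : dist (mf φ n x) (φ x) ≤ ε := by
  rw [mf_swap]
  exact (bu n).dist_normed_convolution_le hφ.aestronglyMeasurable h

theorem mf_diff (φ : ℂ → ℂ) (hφ : Continuous φ)
    (h : ∀ χ : ℂ → ℂ, ContDiff ℝ ∞ χ → HasCompactSupport χ →
      ∫ z, φ z * (fderiv ℝ χ z 1 + Complex.I * fderiv ℝ χ z Complex.I) = 0) (n : ℕ) :
    Differentiable ℂ (mf φ n) := by
  intro x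
  have hli : LocallyIntegrable φ (volume : Measure ℂ) := hφ.locallyIntegrable
  have hc1 : ContDiff ℝ 1 (mo n) := by exact_mod_cast contDiff_infty.1 (mo_cd n) 1
  have hd := (mo_cs n).hasFDerivAt_convolution_right (ContinuousLinearMap.mul ℝ ℂ) hli hc1 x
  have hv : ∀ v : ℂ, fderiv ℝ (mf φ n) x v = ∫ t, φ t * fderiv ℝ (mo n) (x - t) v := by
    intro v
    have h1 : fderiv ℝ (mf φ n) x = (φ ⋆[(ContinuousLinearMap.mul ℝ ℂ).precompR ℂ, (volume : Measure ℂ)]
      fderiv ℝ (mo n)) x := hd.fderiv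
    rw [h1, convolution_precompR_apply _ hli ((mo_cs n).fderiv ℝ)
      (hc1.continuous_fderiv (by norm_num))]
    rfl
  -- the test function
  obtain ⟨χ, hχ⟩ : ∃ χ : ℂ → ℂ, χ = fun t => mo n (x - t) := ⟨_, rfl⟩
  have hχc : ContDiff ℝ ∞ χ := by
    rw [hχ]
    exact (mo_cd n).comp (contDiff_const.sub contDiff_id)
  have hχs : HasCompactSupport χ := by
    rw [hχ]
    exact (mo_cs n).comp_homeomorph (Homeomorph.subLeft x)
  have hχd : ∀ t v, fderiv ℝ χ t v = -fderiv ℝ (mo n) (x - t) v := by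
    intro t v
    have h1 : HasFDerivAt (mo n) (fderiv ℝ (mo n) (x - t)) (x - t) :=
      (hc1.differentiable (by norm_num) (x - t)).hasFDerivAt
    have h2 : HasFDerivAt (fun t : ℂ => x - t) (-(ContinuousLinearMap.id ℝ ℂ)) t := by
      have := (hasFDerivAt_id (𝕜 := ℝ) t).const_sub x
      exact this
    have h3 : HasFDerivAt χ ((fderiv ℝ (mo n) (x - t)).comp (-(ContinuousLinearMap.id ℝ ℂ))) t := by
      rw [hχ]
      exact h1.comp t h2
    rw [h3.fderiv]
    show fderiv ℝ (mo n) (x - t) (-v) = _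
    rw [map_neg]
  have hint : ∀ v : ℂ, Integrable (fun t => φ t * fderiv ℝ (mo n) (x - t) v) (volume : Measure ℂ) := by
    intro v
    have hχ1 : ContDiff ℝ 1 χ := by exact_mod_cast contDiff_infty.1 hχc 1
    have h1 : Continuous (fun t => φ t * fderiv ℝ χ t v) :=
      hφ.mul ((hχ1.continuous_fderiv (by norm_num)).clm_apply continuous_const)
    have h2 : HasCompactSupport (fun t => φ t * fderiv ℝ χ t v) :=
      (hχs.fderiv_apply (𝕜 := ℝ) (v := v)).mul_left
    have h3 := (h1.integrable_of_hasCompactSupport h2 (μ := volume)).neg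
    refine h3.congr (Eventually.of_forall fun t => ?_)
    show -(φ t * fderiv ℝ χ t v) = _
    rw [hχd]
    ring
  have h0 := h χ hχc hχs
  have h1 : ∫ t, φ t * (fderiv ℝ χ t 1 + Complex.I * fderiv ℝ χ t Complex.I) =
      -((∫ t, φ t * fderiv ℝ (mo n) (x - t) 1) +
        Complex.I * ∫ t, φ t * fderiv ℝ (mo n) (x - t) Complex.I) := by
    rw [← integral_const_mul, ← integral_add (hint 1) ((hint Complex.I).const_mul _), ← integral_neg]
    refine integral_congr_ae (Eventually.of_forall fun t => ?_)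
    show φ t * (fderiv ℝ χ t 1 + Complex.I * fderiv ℝ χ t Complex.I) =
      -(φ t * fderiv ℝ (mo n) (x - t) 1 + Complex.I * (φ t * fderiv ℝ (mo n) (x - t) Complex.I))
    rw [hχd, hχd]
    ring
  rw [h0, ← hv, ← hv] at h1
  rw [differentiableAt_complex_iff_differentiableAt_real]
  refine ⟨hd.differentiableAt, ?_⟩
  rw [smul_eq_mul]
  have hI := Complex.I_sq
  linear_combination (-Complex.I) * h1 + (fderiv ℝ (mf φ n) x Complex.I) * hI

theorem d1a : S_D1a := by
  intro φ hφ h
  have hloc : TendstoLocallyUniformlyOn (mf φ) φ atTop Set.univ := by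
    rw [tendstoLocallyUniformlyOn_univ, Metric.tendstoLocallyUniformly_iff]
    intro ε hε x
    have hK : IsCompact (closedBall x 2) := isCompact_closedBall x 2
    have hu := hK.uniformContinuousOn_of_continuous hφ.continuousOn
    rw [Metric.uniformContinuousOn_iff] at hu
    obtain ⟨δ, hδ, hu⟩ := hu (ε / 2) (by positivity)
    refine ⟨ball x 1, ball_mem_nhds x one_pos, ?_⟩
    have h1 : Tendsto (fun n : ℕ => 1 / ((n : ℝ) + 1)) atTop (𝓝 0) := tendsto_one_div_add_atTop_nhds_zero_nat
    filter_upwards [h1.eventually_lt_const (lt_min hδ one_pos)] with n hn y hy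
    rw [dist_comm]
    refine lt_of_le_of_lt (mf_dist φ hφ n y (ε / 2) fun w hw => ?_) (by linarith)
    rw [mem_ball] at hy hw
    have h2 : dist w y < δ := hw.trans (hn.trans_le (min_le_left _ _))
    have h3 : dist w y < 1 := hw.trans (hn.trans_le (min_le_right _ _))
    refine (hu w ?_ y ?_ h2).le
    · rw [mem_closedBall]
      linarith [dist_triangle w y x]
    · rw [mem_closedBall]
      linarith
  have h2 := hloc.differentiableOn (Eventually.of_forall fun n => (mf_diff φ hφ h n).differentiableOn)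
    isOpen_univ
  exact differentiableOn_univ.1 h2

end Pool.Agent.Q208.DP
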