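import Pool.Agent.Q208.DP.D1c

/-! Project DP, job DP-2: integration by parts for the quadratic differential. -/

set_option autoImplicit false
set_option linter.all false

namespace Pool.Agent.Q208.DP

open Pool.Agent.Q61.DP InnerProductSpace Laplacian MeasureTheory
open scoped ContDiff

theorem cint {f : ℂ → ℂ} (hf : Continuous f) (hc : HasCompactSupport f) : Integrable f volume :=
  hf.integrable_of_hasCompactSupport hc

theorem ibp (F G : ℂ → ℂ) (hF : ContDiff ℝ 1 F) (hG : ContDiff ℝ 1 G) (hc : HasCompactSupport G)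
    (s : ℂ) : ∫ z, F z * (fderiv ℝ G z 1 + s * fderiv ℝ G z Complex.I) =
      -∫ z, (fderiv ℝ F z 1 + s * fderiv ℝ F z Complex.I) * G z := by
  have hF1 : Continuous (fderiv ℝ F) := hF.continuous_fderiv (by norm_num)
  have hG1 : Continuous (fderiv ℝ G) := hG.continuous_fderiv (by norm_num)
  have hFv : ∀ v : ℂ, Continuous (fun z => fderiv ℝ F z v) := fun v => hF1.clm_apply continuous_const
  have hGv : ∀ v : ℂ, Continuous (fun z => fderiv ℝ G z v) := fun v => hG1.clm_apply continuous_const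
  have hGc : ∀ v : ℂ, HasCompactSupport (fun z => fderiv ℝ G z v) := by
    intro v
    exact hc.fderiv_apply (𝕜 := ℝ) (v := v)
  have e1 : ∀ v : ℂ, Integrable (fun z => fderiv ℝ F z v * G z) volume := fun v =>
    cint ((hFv v).mul hG.continuous) hc.mul_left
  have e2 : ∀ v : ℂ, Integrable (fun z => F z * fderiv ℝ G z v) volume := fun v =>
    cint (hF.continuous.mul (hGv v)) (hGc v).mul_left
  have e3 : Integrable (fun z => F z * G z) volume := cint (hF.continuous.mul hG.continuous) hc.mul_left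
  have h1 : ∀ v : ℂ, ∫ z, F z * fderiv ℝ G z v = -∫ z, fderiv ℝ F z v * G z := fun v =>
    integral_mul_fderiv_eq_neg_fderiv_mul_of_integrable (e1 v) (e2 v) e3
      (fun x _ => hF.differentiable (by norm_num) x) (fun x _ => hG.differentiable (by norm_num) x)
  have l1 : ∫ z, F z * (fderiv ℝ G z 1 + s * fderiv ℝ G z Complex.I) =
      (∫ z, F z * fderiv ℝ G z 1) + s * ∫ z, F z * fderiv ℝ G z Complex.I := by
    rw [← integral_const_mul, ← integral_add (e2 1) ((e2 Complex.I).const_mul s)]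
    refine integral_congr_ae (Filter.Eventually.of_forall fun z => ?_)
    show F z * (fderiv ℝ G z 1 + s * fderiv ℝ G z Complex.I) =
      F z * fderiv ℝ G z 1 + s * (F z * fderiv ℝ G z Complex.I)
    ring
  have l2 : ∫ z, (fderiv ℝ F z 1 + s * fderiv ℝ F z Complex.I) * G z =
      (∫ z, fderiv ℝ F z 1 * G z) + s * ∫ z, fderiv ℝ F z Complex.I * G z := by
    rw [← integral_const_mul, ← integral_add (e1 1) ((e1 Complex.I).const_mul s)]
    refine integral_congr_ae (Filter.Eventually.of_forall fun z => ?_)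
    show (fderiv ℝ F z 1 + s * fderiv ℝ F z Complex.I) * G z =
      fderiv ℝ F z 1 * G z + s * (fderiv ℝ F z Complex.I * G z)
    ring
  rw [l1, l2, h1, h1]
  ring

theorem fd_app {F : Type*} [NormedAddCommGroup F] [NormedSpace ℝ F] (f : ℂ → F) (z : ℂ)
    (hf : DifferentiableAt ℝ (fderiv ℝ f) z) (w : ℂ) :
    HasFDerivAt (fun z => fderiv ℝ f z w)
      ((ContinuousLinearMap.apply ℝ F w).comp (fderiv ℝ (fderiv ℝ f) z)) z :=
  (ContinuousLinearMap.apply ℝ F w).hasFDerivAt.comp z hf.hasFDerivAt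

theorem d1b : S_D1b := by
  intro u hu
  obtain ⟨hu2, hsol⟩ := hu
  have hud : Differentiable ℝ u := hu2.differentiable (by norm_num)
  have hf1 : ContDiff ℝ 1 (fderiv ℝ u) := fd_diff hu2
  have hudd : Differentiable ℝ (fderiv ℝ u) := hf1.differentiable (by norm_num)
  have hc2 : Continuous (fderiv ℝ (fderiv ℝ u)) := hf1.continuous_fderiv (by norm_num)
  have hD2c : ∀ p q : ℂ, Continuous (fun z => D2 u z p q) := by
    intro p q
    exact (hc2.clm_apply continuous_const).clm_apply continuous_const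
  have hsymm : ∀ z p q, D2 u z p q = D2 u z q p := by
    intro z p q
    exact (hu2.contDiffAt (x := z)).isSymmSndFDerivAt (by simp) p q
  have hu1c : ∀ p : ℂ, ContDiff ℝ 1 (fun z => fderiv ℝ u z p) := fun p => hf1.clm_apply contDiff_const
  -- the function `P = u_x - i u_y`
  obtain ⟨P, hP⟩ : ∃ P : ℂ → ℂ, P = fun z => ((fderiv ℝ u z 1 : ℝ) : ℂ) -
    Complex.I * ((fderiv ℝ u z Complex.I : ℝ) : ℂ) := ⟨_, rfl⟩
  have hPz : ∀ z, P z = ((fderiv ℝ u z 1 : ℝ) : ℂ) - Complex.I * ((fderiv ℝ u z Complex.I : ℝ) : ℂ) :=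
    fun z => by rw [hP]
  have hof : ∀ p : ℂ, ContDiff ℝ 1 (fun z => ((fderiv ℝ u z p : ℝ) : ℂ)) := fun p =>
    Complex.ofRealCLM.contDiff.comp (hu1c p)
  have hPc : ContDiff ℝ 1 P := by
    rw [hP]
    exact (hof 1).sub (contDiff_const.mul (hof Complex.I))
  have hPd : ∀ z v, fderiv ℝ P z v = ((D2 u z v 1 : ℝ) : ℂ) - Complex.I * ((D2 u z v Complex.I : ℝ) : ℂ) := by
    intro z v
    have h1 : ∀ p : ℂ, HasFDerivAt (fun z => ((fderiv ℝ u z p : ℝ) : ℂ))
        (Complex.ofRealCLM.comp ((ContinuousLinearMap.apply ℝ ℝ p).comp (fderiv ℝ (fderiv ℝ u) z))) z :=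
      fun p => Complex.ofRealCLM.hasFDerivAt.comp z (fd_app u z (hudd z) p)
    have h2 : HasFDerivAt P ((Complex.ofRealCLM.comp ((ContinuousLinearMap.apply ℝ ℝ (1 : ℂ)).comp
        (fderiv ℝ (fderiv ℝ u) z))) - Complex.I • (Complex.ofRealCLM.comp
        ((ContinuousLinearMap.apply ℝ ℝ Complex.I).comp (fderiv ℝ (fderiv ℝ u) z)))) z := by
      rw [hP]
      exact (h1 1).sub ((h1 Complex.I).const_mul Complex.I)
    rw [h2.fderiv]
    rfl
  -- the function `W = e^{2u}`
  obtain ⟨W, hW⟩ : ∃ W : ℂ → ℂ, W = fun z => ((Real.exp (2 * u z) : ℝ) : ℂ) := ⟨_, rfl⟩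
  have hWc : ContDiff ℝ 1 W := by
    rw [hW]
    exact Complex.ofRealCLM.contDiff.comp ((contDiff_const.mul (hu2.of_le (by norm_num))).exp)
  have hWd : ∀ z v, fderiv ℝ W z v = 2 * W z * ((fderiv ℝ u z v : ℝ) : ℂ) := by
    intro z v
    have h1 : HasFDerivAt (fun z => Real.exp (2 * u z)) (Real.exp (2 * u z) • ((2 : ℝ) • fderiv ℝ u z)) z :=
      ((hud z).hasFDerivAt.const_mul 2).exp
    have h2 : HasFDerivAt W (Complex.ofRealCLM.comp (Real.exp (2 * u z) • ((2 : ℝ) • fderiv ℝ u z))) z := by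
      rw [hW]
      exact Complex.ofRealCLM.hasFDerivAt.comp z h1
    rw [h2.fderiv]
    show ((Real.exp (2 * u z) * (2 * fderiv ℝ u z v) : ℝ) : ℂ) = _
    rw [hW]
    push_cast
    ring
  have hqd : ∀ z, qd u z = (fderiv ℝ P z 1 + (-Complex.I) * fderiv ℝ P z Complex.I) - P z ^ 2 := by
    intro z
    rw [hPd, hPd, hPz, hsymm z Complex.I 1]
    unfold qd
    push_cast
    have hI := Complex.I_sq
    linear_combination (-((D2 u z Complex.I Complex.I : ℝ) : ℂ)) * hI
  have hdb : ∀ z, fderiv ℝ P z 1 + Complex.I * fderiv ℝ P z Complex.I = -W z := by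
    intro z
    rw [hPd, hPd, hsymm z Complex.I 1]
    have h3 := hsol z
    rw [lap_eq] at h3
    have h4 : ((D2 u z 1 1 : ℝ) : ℂ) + ((D2 u z Complex.I Complex.I : ℝ) : ℂ) +
        ((Real.exp (2 * u z) : ℝ) : ℂ) = 0 := by exact_mod_cast h3
    have hI := Complex.I_sq
    have hWz : W z = ((Real.exp (2 * u z) : ℝ) : ℂ) := by rw [hW]
    rw [hWz]
    linear_combination h4 - ((D2 u z Complex.I Complex.I : ℝ) : ℂ) * hI
  refine ⟨?_, ?_⟩
  · unfold qd
    refine Continuous.sub (Continuous.sub ?_ ?_) ?_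
    · exact Complex.continuous_ofReal.comp ((hD2c 1 1).sub (hD2c Complex.I Complex.I))
    · exact continuous_const.mul (Complex.continuous_ofReal.comp (hD2c 1 Complex.I))
    · exact ((Complex.continuous_ofReal.comp (hu1c 1).continuous).sub
        (continuous_const.mul (Complex.continuous_ofReal.comp (hu1c Complex.I).continuous))).pow 2
  · intro χ hχ hcs
    have hχ2 : ContDiff ℝ 2 χ := by exact_mod_cast contDiff_infty.1 hχ 2
    have hχ1 : ContDiff ℝ 1 (fderiv ℝ χ) := fd_diff hχ2
    have hχd : Differentiable ℝ (fderiv ℝ χ) := hχ1.differentiable (by norm_num)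
    have hχp : ∀ p : ℂ, ContDiff ℝ 1 (fun z => fderiv ℝ χ z p) := fun p => hχ1.clm_apply contDiff_const
    have hχc : ∀ v : ℂ, HasCompactSupport (fun z => fderiv ℝ χ z v) := by
      intro v
      exact hcs.fderiv_apply (𝕜 := ℝ) (v := v)
    have hχs : ∀ z p q, fderiv ℝ (fderiv ℝ χ) z p q = fderiv ℝ (fderiv ℝ χ) z q p := by
      intro z p q
      exact (hχ2.contDiffAt (x := z)).isSymmSndFDerivAt (by simp) p q
    obtain ⟨G, hG⟩ : ∃ G : ℂ → ℂ, G = fun z => fderiv ℝ χ z 1 + Complex.I * fderiv ℝ χ z Complex.I :=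
      ⟨_, rfl⟩
    obtain ⟨H, hH⟩ : ∃ H : ℂ → ℂ, H = fun z => fderiv ℝ χ z 1 + (-Complex.I) * fderiv ℝ χ z Complex.I :=
      ⟨_, rfl⟩
    have hGc : ContDiff ℝ 1 G := by
      rw [hG]
      exact (hχp 1).add (contDiff_const.mul (hχp Complex.I))
    have hHc : ContDiff ℝ 1 H := by
      rw [hH]
      exact (hχp 1).add (contDiff_const.mul (hχp Complex.I))
    have hGs : HasCompactSupport G := by
      rw [hG]
      exact (hχc 1).add (hχc Complex.I).mul_left
    have hHs : HasCompactSupport H := by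
      rw [hH]
      exact (hχc 1).add (hχc Complex.I).mul_left
    have hGd : ∀ z v, fderiv ℝ G z v = fderiv ℝ (fderiv ℝ χ) z v 1 +
        Complex.I * fderiv ℝ (fderiv ℝ χ) z v Complex.I := by
      intro z v
      have h2 : HasFDerivAt G (((ContinuousLinearMap.apply ℝ ℂ (1 : ℂ)).comp
          (fderiv ℝ (fderiv ℝ χ) z)) + Complex.I • ((ContinuousLinearMap.apply ℝ ℂ Complex.I).comp
          (fderiv ℝ (fderiv ℝ χ) z))) z := by
        rw [hG]
        exact (fd_app χ z (hχd z) 1).add ((fd_app χ z (hχd z) Complex.I).const_mul Complex.I)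
      rw [h2.fderiv]
      rfl
    have hHd : ∀ z v, fderiv ℝ H z v = fderiv ℝ (fderiv ℝ χ) z v 1 +
        (-Complex.I) * fderiv ℝ (fderiv ℝ χ) z v Complex.I := by
      intro z v
      have h2 : HasFDerivAt H (((ContinuousLinearMap.apply ℝ ℂ (1 : ℂ)).comp
          (fderiv ℝ (fderiv ℝ χ) z)) + (-Complex.I) • ((ContinuousLinearMap.apply ℝ ℂ Complex.I).comp
          (fderiv ℝ (fderiv ℝ χ) z))) z := by
        rw [hH]
        exact (fd_app χ z (hχd z) 1).add ((fd_app χ z (hχd z) Complex.I).const_mul (-Complex.I))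
      rw [h2.fderiv]
      rfl
    have hGH : ∀ z, fderiv ℝ G z 1 + (-Complex.I) * fderiv ℝ G z Complex.I =
        fderiv ℝ H z 1 + Complex.I * fderiv ℝ H z Complex.I := by
      intro z
      rw [hGd, hGd, hHd, hHd, hχs z Complex.I 1]
      ring
    have hχC1 : ContDiff ℝ 1 χ := hχ2.of_le (by norm_num)
    -- first part
    have hA : ∫ z, (fderiv ℝ P z 1 + (-Complex.I) * fderiv ℝ P z Complex.I) * G z =
        ∫ z, 2 * W z * P z * χ z := by
      have a1 := ibp P G hPc hGc hGs (-Complex.I)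
      have a2 : ∫ z, P z * (fderiv ℝ G z 1 + (-Complex.I) * fderiv ℝ G z Complex.I) =
          ∫ z, P z * (fderiv ℝ H z 1 + Complex.I * fderiv ℝ H z Complex.I) :=
        integral_congr_ae (Filter.Eventually.of_forall fun z => by
          show P z * (fderiv ℝ G z 1 + (-Complex.I) * fderiv ℝ G z Complex.I) = _
          rw [hGH])
      have a3 := ibp P H hPc hHc hHs Complex.I
      have a4 : ∫ z, (fderiv ℝ P z 1 + Complex.I * fderiv ℝ P z Complex.I) * H z =
          -∫ z, W z * (fderiv ℝ χ z 1 + (-Complex.I) * fderiv ℝ χ z Complex.I) := by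
        rw [← integral_neg]
        refine integral_congr_ae (Filter.Eventually.of_forall fun z => ?_)
        show (fderiv ℝ P z 1 + Complex.I * fderiv ℝ P z Complex.I) * H z =
          -(W z * (fderiv ℝ χ z 1 + (-Complex.I) * fderiv ℝ χ z Complex.I))
        rw [hdb, hH]
        ring
      have a5 := ibp W χ hWc hχC1 hcs (-Complex.I)
      have a6 : ∫ z, (fderiv ℝ W z 1 + (-Complex.I) * fderiv ℝ W z Complex.I) * χ z =
          ∫ z, 2 * W z * P z * χ z :=
        integral_congr_ae (Filter.Eventually.of_forall fun z => by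
          show (fderiv ℝ W z 1 + (-Complex.I) * fderiv ℝ W z Complex.I) * χ z = 2 * W z * P z * χ z
          rw [hWd, hWd, hPz]
          ring)
      rw [a2, a3, a4, a5, a6] at a1
      have a7 : ∫ z, (fderiv ℝ P z 1 + (-Complex.I) * fderiv ℝ P z Complex.I) * G z =
          -(-(-(-∫ z, 2 * W z * P z * χ z))) := by
        rw [a1, neg_neg]
      rw [a7]
      ring
    -- second part
    have hB : ∫ z, P z ^ 2 * (fderiv ℝ χ z 1 + Complex.I * fderiv ℝ χ z Complex.I) =
        ∫ z, 2 * W z * P z * χ z := by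
      have hP2 : ContDiff ℝ 1 (fun z => P z ^ 2) := hPc.pow 2
      have b1 := ibp (fun z => P z ^ 2) χ hP2 hχC1 hcs Complex.I
      have b2 : ∀ z v, fderiv ℝ (fun z => P z ^ 2) z v = 2 * P z * fderiv ℝ P z v := by
        intro z v
        have h1 := ((hPc.differentiable (by norm_num)) z).hasFDerivAt
        have h2 : HasFDerivAt (fun z => P z * P z) (P z • fderiv ℝ P z + P z • fderiv ℝ P z) z := h1.mul h1
        have h3 : (fun z => P z ^ 2) = fun z => P z * P z := funext fun z => sq (P z)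
        rw [h3, h2.fderiv]
        show P z * fderiv ℝ P z v + P z * fderiv ℝ P z v = _
        ring
      rw [b1, ← integral_neg]
      refine integral_congr_ae (Filter.Eventually.of_forall fun z => ?_)
      show -((fderiv ℝ (fun z => P z ^ 2) z 1 + Complex.I * fderiv ℝ (fun z => P z ^ 2) z Complex.I) * χ z) =
        2 * W z * P z * χ z
      rw [b2, b2]
      have h5 := hdb z
      linear_combination (-2 * P z * χ z) * h5
    have hi1 : Integrable (fun z => (fderiv ℝ P z 1 + (-Complex.I) * fderiv ℝ P z Complex.I) * G z)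
        volume := by
      have hP1 : Continuous (fderiv ℝ P) := hPc.continuous_fderiv (by norm_num)
      exact cint (((hP1.clm_apply continuous_const).add
        (continuous_const.mul (hP1.clm_apply continuous_const))).mul hGc.continuous) hGs.mul_left
    have hi2 : Integrable (fun z => P z ^ 2 * (fderiv ℝ χ z 1 + Complex.I * fderiv ℝ χ z Complex.I))
        volume := by
      have : Continuous fun z => P z ^ 2 * G z := (hPc.continuous.pow 2).mul hGc.continuous
      have h2 : Integrable (fun z => P z ^ 2 * G z) volume := cint this hGs.mul_left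
      rw [hG] at h2
      exact h2
    have hfin : ∫ z, qd u z * (fderiv ℝ χ z 1 + Complex.I * fderiv ℝ χ z Complex.I) =
        (∫ z, (fderiv ℝ P z 1 + (-Complex.I) * fderiv ℝ P z Complex.I) * G z) -
        ∫ z, P z ^ 2 * (fderiv ℝ χ z 1 + Complex.I * fderiv ℝ χ z Complex.I) := by
      rw [← integral_sub hi1 hi2]
      refine integral_congr_ae (Filter.Eventually.of_forall fun z => ?_)
      show qd u z * (fderiv ℝ χ z 1 + Complex.I * fderiv ℝ χ z Complex.I) =
        (fderiv ℝ P z 1 + (-Complex.I) * fderiv ℝ P z Complex.I) * G z -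
        P z ^ 2 * (fderiv ℝ χ z 1 + Complex.I * fderiv ℝ χ z Complex.I)
      rw [hqd, hG]
      ring
    rw [hfin, hA, hB, sub_self]

end Pool.Agent.Q208.DP
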