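import Pool.Agent.Q61.DP.Stm

/-! Project DP, job DP-3: the equations of `v = e^{-u}`. -/

set_option autoImplicit false
set_option linter.all false

namespace Pool.Agent.Q208.DP

open Pool.Agent.Q61.DP InnerProductSpace Laplacian
open scoped ContDiff

theorem fd_diff {F : Type*} [NormedAddCommGroup F] [NormedSpace ℝ F] {u : ℂ → F}
    (hu : ContDiff ℝ 2 u) : ContDiff ℝ 1 (fderiv ℝ u) := hu.fderiv_right (by norm_num)

theorem lap_eq (u : ℂ → ℝ) (z : ℂ) : (Δ u) z = D2 u z 1 1 + D2 u z Complex.I Complex.I := by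
  rw [laplacian_eq_iteratedFDeriv_complexPlane]
  show iteratedFDeriv ℝ 2 u z ![1, 1] + iteratedFDeriv ℝ 2 u z ![Complex.I, Complex.I] = _
  rw [iteratedFDeriv_two_apply, iteratedFDeriv_two_apply]
  rfl

theorem d1c : S_D1c := by
  intro u hu
  obtain ⟨hu2, hsol⟩ := hu
  have hud : Differentiable ℝ u := hu2.differentiable (by norm_num)
  have hudd : Differentiable ℝ (fderiv ℝ u) := (fd_diff hu2).differentiable (by norm_num)
  obtain ⟨v, hv⟩ : ∃ v : ℂ → ℝ, v = fun z => Real.exp (-(u z)) := ⟨_, rfl⟩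
  have hvz : ∀ z, v z = Real.exp (-(u z)) := fun z => by rw [hv]
  have hv2 : ContDiff ℝ 2 v := by
    rw [hv]
    exact hu2.neg.exp
  have hv1 : ∀ z, HasFDerivAt v ((-(v z)) • fderiv ℝ u z) z := by
    intro z
    have h1 := ((hud z).hasFDerivAt.neg).exp
    rw [hvz z, hv]
    refine h1.congr_fderiv ?_
    rw [smul_neg, neg_smul]
    rfl
  have hfd : fderiv ℝ v = fun z => (-(v z)) • fderiv ℝ u z := funext fun z => (hv1 z).fderiv
  have h1 : ∀ z p, fderiv ℝ v z p = -(v z) * fderiv ℝ u z p := by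
    intro z p
    rw [hfd]
    rfl
  have h2 : ∀ z p q, D2 v z p q = v z * (fderiv ℝ u z p * fderiv ℝ u z q - D2 u z p q) := by
    intro z p q
    have h3 : HasFDerivAt (fderiv ℝ v) ((-(v z)) • fderiv ℝ (fderiv ℝ u) z +
        (-((-(v z)) • fderiv ℝ u z)).smulRight (fderiv ℝ u z)) z := by
      rw [hfd]
      exact (hv1 z).neg.smul (hudd z).hasFDerivAt
    unfold D2
    rw [h3.fderiv]
    show (-(v z)) * (fderiv ℝ (fderiv ℝ u) z p q) +
      (-((-(v z)) * fderiv ℝ u z p)) * fderiv ℝ u z q = _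
    ring
  have hvv : ∀ z, v z * v z * Real.exp (2 * u z) = 1 := by
    intro z
    rw [hvz z, ← Real.exp_add, ← Real.exp_add]
    rw [show -u z + -u z + 2 * u z = 0 by ring, Real.exp_zero]
  refine ⟨v, hvz, hv2, fun z => ?_, fun z => ?_⟩
  · have h3 := hsol z
    rw [lap_eq] at h3
    rw [h2, h2, h1, h1]
    have h4 := hvv z
    have h5 : D2 u z 1 1 + D2 u z Complex.I Complex.I = -Real.exp (2 * u z) := by linarith
    calc v z * (v z * (fderiv ℝ u z 1 * fderiv ℝ u z 1 - D2 u z 1 1) +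
          v z * (fderiv ℝ u z Complex.I * fderiv ℝ u z Complex.I - D2 u z Complex.I Complex.I)) -
          ((-(v z) * fderiv ℝ u z 1) ^ 2 + (-(v z) * fderiv ℝ u z Complex.I) ^ 2)
        = -(v z * v z * (D2 u z 1 1 + D2 u z Complex.I Complex.I)) := by ring
      _ = 1 := by rw [h5, mul_neg, neg_neg, h4]
  · rw [h2, h2, h2]
    unfold qd
    push_cast
    have hI := Complex.I_sq
    linear_combination (-((v z : ℂ) * ((fderiv ℝ u z Complex.I : ℝ) : ℂ) ^ 2)) * hI

end Pool.Agent.Q208.DP
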