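import Pool.Agent.Q61.DP.Stm

/-! Project DP, job DP-4: entire solutions of `y'' = -φ y` by power series. -/

set_option autoImplicit false
set_option linter.all false

namespace Pool.Agent.Q208.DP

open Pool.Agent.Q61.DP Finset

/-- coefficients of an entire function -/
def Ent (c : ℕ → ℂ) : Prop := ∀ R : ℝ, 0 < R → ∃ B : ℝ, ∀ n, ‖c n‖ * R ^ n ≤ B

theorem ent_summ {c : ℕ → ℂ} (hc : Ent c) (R : ℝ) (hR : 0 ≤ R) :
    Summable (fun n => ‖c n‖ * R ^ n) := by
  obtain ⟨B, hB⟩ := hc (2 * R + 1) (by positivity)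
  have hB0 : 0 ≤ B := le_trans (by positivity) (hB 0)
  refine Summable.of_nonneg_of_le (fun n => by positivity) (fun n => ?_)
    ((summable_geometric_of_lt_one (by norm_num : (0 : ℝ) ≤ 1 / 2) (by norm_num)).mul_left B)
  have h1 := hB n
  have h2 : R ^ n ≤ (1 / 2) ^ n * (2 * R + 1) ^ n := by
    rw [← mul_pow]
    exact pow_le_pow_left₀ hR (by linarith) n
  calc ‖c n‖ * R ^ n ≤ ‖c n‖ * ((1 / 2) ^ n * (2 * R + 1) ^ n) :=
        mul_le_mul_of_nonneg_left h2 (norm_nonneg _)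
    _ = (1 / 2) ^ n * (‖c n‖ * (2 * R + 1) ^ n) := by ring
    _ ≤ (1 / 2) ^ n * B := mul_le_mul_of_nonneg_left h1 (by positivity)
    _ = B * (1 / 2) ^ n := by ring

/-- the coefficients of the derivative -/
def dc (c : ℕ → ℂ) (n : ℕ) : ℂ := ((n : ℂ) + 1) * c (n + 1)

theorem ent_dc {c : ℕ → ℂ} (hc : Ent c) : Ent (dc c) := by
  intro R hR
  have h1 : Summable (fun n => ‖c n‖ * (2 * R) ^ n) := ent_summ hc (2 * R) (by positivity)
  obtain ⟨B, hB⟩ := hc (2 * R) (by positivity)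
  refine ⟨B / R, fun n => ?_⟩
  have h2 : ((n : ℝ) + 1) ≤ 2 ^ (n + 1) := by
    have := (Nat.lt_two_pow_self (n := n + 1)).le
    have h3 : ((n + 1 : ℕ) : ℝ) ≤ ((2 ^ (n + 1) : ℕ) : ℝ) := by exact_mod_cast this
    push_cast at h3
    exact h3
  have h3 : ‖dc c n‖ = ((n : ℝ) + 1) * ‖c (n + 1)‖ := by
    unfold dc
    rw [norm_mul]
    congr 1
    have : ((n : ℂ) + 1) = ((n + 1 : ℕ) : ℂ) := by push_cast; ring
    rw [this, Complex.norm_natCast]
    push_cast
    ring
  rw [h3, le_div_iff₀ hR]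
  calc ((n : ℝ) + 1) * ‖c (n + 1)‖ * R ^ n * R = ((n : ℝ) + 1) * (‖c (n + 1)‖ * R ^ (n + 1)) := by
        rw [pow_succ]
        ring
    _ ≤ 2 ^ (n + 1) * (‖c (n + 1)‖ * R ^ (n + 1)) := mul_le_mul_of_nonneg_right h2 (by positivity)
    _ = ‖c (n + 1)‖ * (2 * R) ^ (n + 1) := by
        rw [mul_pow]
        ring
    _ ≤ B := hB (n + 1)

/-- the sum of the power series -/
noncomputable def Sm (c : ℕ → ℂ) (z : ℂ) : ℂ := ∑' n, c n * z ^ n

theorem sm_summ {c : ℕ → ℂ} (hc : Ent c) (z : ℂ) : Summable (fun n => ‖c n * z ^ n‖) := by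
  have := ent_summ hc ‖z‖ (norm_nonneg z)
  refine this.congr fun n => ?_
  rw [norm_mul, norm_pow]

theorem sm_deriv {c : ℕ → ℂ} (hc : Ent c) (z : ℂ) : HasDerivAt (Sm c) (Sm (dc c) z) z := by
  obtain ⟨R, hR⟩ : ∃ R : ℝ, R = ‖z‖ + 1 := ⟨_, rfl⟩
  have hR0 : 0 < R := by rw [hR]; positivity
  have hs : Summable (fun n => ‖dc c n‖ * R ^ n) := ent_summ (ent_dc hc) R hR0.le
  have hu : Summable (fun n : ℕ => (n : ℝ) * ‖c n‖ * R ^ (n - 1)) := by
    rw [← summable_nat_add_iff 1]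
    refine hs.congr fun n => ?_
    rw [Nat.add_sub_cancel]
    congr 1
    unfold dc
    rw [norm_mul]
    congr 1
    have : ((n : ℂ) + 1) = ((n + 1 : ℕ) : ℂ) := by push_cast; ring
    rw [this, Complex.norm_natCast]
  have h1 := hasDerivAt_tsum_of_isPreconnected (u := fun n : ℕ => (n : ℝ) * ‖c n‖ * R ^ (n - 1))
    (g := fun n w => c n * w ^ n) (g' := fun n w => c n * ((n : ℂ) * w ^ (n - 1)))
    (t := Metric.ball (0 : ℂ) R) (y₀ := 0) (y := z) hu Metric.isOpen_ball
    (convex_ball (0 : ℂ) R).isPreconnected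
    (fun n w _ => (hasDerivAt_pow n w).const_mul (c n))
    (fun n w hw => by
      rw [mem_ball_zero_iff] at hw
      rw [norm_mul, norm_mul, norm_pow, Complex.norm_natCast]
      have : ‖w‖ ^ (n - 1) ≤ R ^ (n - 1) := pow_le_pow_left₀ (norm_nonneg w) hw.le _
      calc ‖c n‖ * ((n : ℝ) * ‖w‖ ^ (n - 1)) = (n : ℝ) * ‖c n‖ * ‖w‖ ^ (n - 1) := by ring
        _ ≤ (n : ℝ) * ‖c n‖ * R ^ (n - 1) := mul_le_mul_of_nonneg_left this (by positivity))
    (Metric.mem_ball_self hR0) (sm_summ hc 0).of_norm (by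
      rw [mem_ball_zero_iff, hR]
      linarith)
  have h2 : ∑' n : ℕ, c n * ((n : ℂ) * z ^ (n - 1)) = Sm (dc c) z := by
    have h3 : Summable (fun n : ℕ => c n * ((n : ℂ) * z ^ (n - 1))) := by
      rw [← summable_nat_add_iff 1]
      refine (sm_summ (ent_dc hc) z).of_norm.congr fun n => ?_
      unfold dc
      rw [Nat.add_sub_cancel]
      push_cast
      ring
    rw [h3.tsum_eq_zero_add]
    rw [Nat.cast_zero, zero_mul, mul_zero, zero_add]
    unfold Sm
    refine tsum_congr fun n => ?_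
    unfold dc
    rw [Nat.add_sub_cancel]
    push_cast
    ring
  rw [h2] at h1
  exact h1

theorem sm_zero (c : ℕ → ℂ) : Sm c 0 = c 0 := by
  unfold Sm
  rw [tsum_eq_single 0]
  · simp
  · intro n hn
    rw [zero_pow hn, mul_zero]

/-- the coefficients of the solution -/
noncomputable def cf (p : ℕ → ℂ) (α β : ℂ) : ℕ → ℂ
  | 0 => α
  | 1 => β
  | n + 2 => -(∑ k : Fin (n + 1), p k * cf p α β (n - k)) / (((n : ℂ) + 2) * ((n : ℂ) + 1))
  decreasing_by omega

theorem cf_succ (p : ℕ → ℂ) (α β : ℂ) (n : ℕ) :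
    (((n : ℂ) + 1 + 1) * ((n : ℂ) + 1)) * cf p α β (n + 2) =
      -(∑ k ∈ range (n + 1), p k * cf p α β (n - k)) := by
  rw [cf, ← Fin.sum_univ_eq_sum_range (fun k => p k * cf p α β (n - k))]
  have h1 : ((n : ℂ) + 1) ≠ 0 := Nat.cast_add_one_ne_zero n
  have h2 : ((n : ℂ) + 2) ≠ 0 := by
    have : ((n + 1 : ℕ) : ℂ) + 1 ≠ 0 := Nat.cast_add_one_ne_zero (n + 1)
    push_cast at this
    intro h
    apply this
    rw [← h]
    ring
  field_simp
  ring

theorem ent_cf (p : ℕ → ℂ) (hp : Ent p) (α β : ℂ) : Ent (cf p α β) := by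
  intro R hR
  obtain ⟨M, hM⟩ := hp R hR
  have hM0 : 0 ≤ M := le_trans (by positivity) (hM 0)
  obtain ⟨N, hN⟩ := exists_nat_ge (R ^ 2 * M)
  obtain ⟨B, hB⟩ : ∃ B : ℝ, B = ∑ k ∈ range (N + 3), ‖cf p α β k‖ * R ^ k := ⟨_, rfl⟩
  have hB0 : 0 ≤ B := by
    rw [hB]
    exact sum_nonneg fun k _ => by positivity
  refine ⟨B, fun n => ?_⟩
  induction n using Nat.strong_induction_on with
  | _ m ih =>
    by_cases hm : m < N + 3
    · rw [hB]
      exact single_le_sum (f := fun k => ‖cf p α β k‖ * R ^ k) (fun k _ => by positivity)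
        (mem_range.2 hm)
    · obtain ⟨n, rfl⟩ : ∃ n, m = n + 2 := ⟨m - 2, by omega⟩
      have h1 := congrArg norm (cf_succ p α β n)
      rw [norm_neg, norm_mul, norm_mul] at h1
      have e1 : ‖((n : ℂ) + 1 + 1)‖ = (n : ℝ) + 2 := by
        have : ((n : ℂ) + 1 + 1) = ((n + 2 : ℕ) : ℂ) := by push_cast; ring
        rw [this, Complex.norm_natCast]
        push_cast
        ring
      have e2 : ‖((n : ℂ) + 1)‖ = (n : ℝ) + 1 := by
        have : ((n : ℂ) + 1) = ((n + 1 : ℕ) : ℂ) := by push_cast; ring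
        rw [this, Complex.norm_natCast]
        push_cast
        ring
      rw [e1, e2] at h1
      have h2 : ‖∑ k ∈ range (n + 1), p k * cf p α β (n - k)‖ * R ^ n ≤ ((n : ℝ) + 1) * (M * B) := by
        calc ‖∑ k ∈ range (n + 1), p k * cf p α β (n - k)‖ * R ^ n
            ≤ (∑ k ∈ range (n + 1), ‖p k * cf p α β (n - k)‖) * R ^ n :=
              mul_le_mul_of_nonneg_right (norm_sum_le _ _) (by positivity)
          _ = ∑ k ∈ range (n + 1), (‖p k‖ * R ^ k) * (‖cf p α β (n - k)‖ * R ^ (n - k)) := by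
              rw [sum_mul]
              refine sum_congr rfl fun k hk => ?_
              rw [mem_range] at hk
              rw [norm_mul]
              have : R ^ n = R ^ k * R ^ (n - k) := by
                rw [← pow_add]
                congr 1
                omega
              rw [this]
              ring
          _ ≤ ∑ k ∈ range (n + 1), M * B := by
              refine sum_le_sum fun k hk => ?_
              exact mul_le_mul (hM k) (ih (n - k) (by omega)) (by positivity) hM0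
          _ = ((n : ℝ) + 1) * (M * B) := by
              rw [sum_const, card_range, nsmul_eq_mul]
              push_cast
              ring
      have hn0 : (0 : ℝ) < (n : ℝ) + 1 := by positivity
      have hn2 : (0 : ℝ) < (n : ℝ) + 2 := by positivity
      have h3 : ((n : ℝ) + 1) * (((n : ℝ) + 2) * (‖cf p α β (n + 2)‖ * R ^ n)) ≤
          ((n : ℝ) + 1) * (M * B) := by
        calc ((n : ℝ) + 1) * (((n : ℝ) + 2) * (‖cf p α β (n + 2)‖ * R ^ n))
            = (((n : ℝ) + 2) * ((n : ℝ) + 1) * ‖cf p α β (n + 2)‖) * R ^ n := by ring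
          _ = ‖∑ k ∈ range (n + 1), p k * cf p α β (n - k)‖ * R ^ n := by rw [h1]
          _ ≤ _ := h2
      have h4 := le_of_mul_le_mul_left h3 hn0
      have h5 : R ^ 2 * M ≤ (n : ℝ) + 2 := by
        have : (N : ℝ) ≤ n := by exact_mod_cast (by omega : N ≤ n)
        linarith
      have h6 : ((n : ℝ) + 2) * (‖cf p α β (n + 2)‖ * R ^ (n + 2)) ≤ ((n : ℝ) + 2) * B := by
        calc ((n : ℝ) + 2) * (‖cf p α β (n + 2)‖ * R ^ (n + 2))
            = R ^ 2 * (((n : ℝ) + 2) * (‖cf p α β (n + 2)‖ * R ^ n)) := by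
              rw [pow_add]
              ring
          _ ≤ R ^ 2 * (M * B) := mul_le_mul_of_nonneg_left h4 (by positivity)
          _ = (R ^ 2 * M) * B := by ring
          _ ≤ ((n : ℝ) + 2) * B := mul_le_mul_of_nonneg_right h5 hB0
      exact le_of_mul_le_mul_left h6 hn2

theorem ent_taylor (φ : ℂ → ℂ) (hφ : Differentiable ℂ φ) :
    ∃ p : ℕ → ℂ, Ent p ∧ ∀ z, φ z = Sm p z := by
  have h1 : ∀ z, HasSum (fun n : ℕ => ((n.factorial : ℂ)⁻¹ * iteratedDeriv n φ 0) * z ^ n) (φ z) := by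
    intro z
    have h2 := Complex.hasSum_taylorSeries_of_entire hφ 0 z
    refine h2.congr_fun ?_
    intro n
    simp only [sub_zero, smul_eq_mul]
    ring
  refine ⟨fun n => (n.factorial : ℂ)⁻¹ * iteratedDeriv n φ 0, fun R hR => ?_, fun z => ?_⟩
  · have h2 := (h1 (R : ℂ)).summable.tendsto_atTop_zero
    obtain ⟨B, hB⟩ := (Metric.isBounded_range_of_tendsto _ h2).exists_norm_le
    refine ⟨B, fun n => ?_⟩
    have h3 := hB _ (Set.mem_range_self n)
    rw [norm_mul, norm_pow, Complex.norm_real, Real.norm_of_nonneg hR.le] at h3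
    exact h3
  · exact (h1 z).tsum_eq.symm

theorem sol_exists (φ : ℂ → ℂ) (hφ : Differentiable ℂ φ) (α β : ℂ) : ∃ y y' : ℂ → ℂ,
    (∀ z, HasDerivAt y (y' z) z) ∧ (∀ z, HasDerivAt y' (-φ z * y z) z) ∧ y 0 = α ∧ y' 0 = β := by
  obtain ⟨p, hp, hpφ⟩ := ent_taylor φ hφ
  have hc := ent_cf p hp α β
  refine ⟨Sm (cf p α β), Sm (dc (cf p α β)), fun z => sm_deriv hc z, fun z => ?_, ?_, ?_⟩
  · have h1 := sm_deriv (ent_dc hc) z
    have h2 : Sm (dc (dc (cf p α β))) z = -φ z * Sm (cf p α β) z := by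
      rw [hpφ z]
      have h3 := tsum_mul_tsum_eq_tsum_sum_range_of_summable_norm (sm_summ hp z) (sm_summ hc z)
      have h4 : Sm p z * Sm (cf p α β) z =
          ∑' n : ℕ, ∑ k ∈ range (n + 1), p k * z ^ k * (cf p α β (n - k) * z ^ (n - k)) := h3
      rw [neg_mul, h4, ← tsum_neg]
      unfold Sm
      refine tsum_congr fun n => ?_
      have h5 : dc (dc (cf p α β)) n = -(∑ k ∈ range (n + 1), p k * cf p α β (n - k)) := by
        rw [← cf_succ]
        unfold dc
        push_cast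
        ring
      rw [h5, neg_mul, sum_mul]
      congr 1
      refine sum_congr rfl fun k hk => ?_
      rw [mem_range] at hk
      have : z ^ n = z ^ k * z ^ (n - k) := by
        rw [← pow_add]
        congr 1
        omega
      rw [this]
      ring
    rw [h2] at h1
    exact h1
  · rw [sm_zero, cf]
  · rw [sm_zero]
    unfold dc
    rw [cf]
    simp

theorem d2 : S_D2 := by
  intro φ hφ
  obtain ⟨y₁, z₁, h1, h2, h3, h4⟩ := sol_exists φ hφ 1 0
  obtain ⟨y₂, z₂, g1, g2, g3, g4⟩ := sol_exists φ hφ 0 1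
  have e1 : deriv y₁ = z₁ := funext fun z => (h1 z).deriv
  have e2 : deriv y₂ = z₂ := funext fun z => (g1 z).deriv
  refine ⟨y₁, y₂, fun z => (h1 z).differentiableAt, fun z => (g1 z).differentiableAt, ?_, ?_, ?_⟩
  · intro z
    rw [e1]
    exact (h2 z).deriv
  · intro z
    rw [e2]
    exact (g2 z).deriv
  · intro z
    rw [e1, e2]
    have hW : ∀ w, HasDerivAt (fun w => y₁ w * z₂ w - z₁ w * y₂ w) 0 w := by
      intro w
      have h5 := ((h1 w).mul (g2 w)).sub ((h2 w).mul (g1 w))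
      refine h5.congr_deriv ?_
      ring
    have h6 := is_const_of_deriv_eq_zero (fun w => (hW w).differentiableAt) (fun w => (hW w).deriv) z 0
    have h7 : y₁ z * z₂ z - z₁ z * y₂ z = y₁ 0 * z₂ 0 - z₁ 0 * y₂ 0 := h6
    rw [h7, h3, h4, g3, g4]
    ring

end Pool.Agent.Q208.DP
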