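import Pool.Agent.Q208.DP.SIG

/-!
# DP-8: frames with a given third vector
-/

namespace Pool.Agent.Q208.DP

open Pool.Agent.Q61.DP Set

theorem inner3 (x y z x' y' z' : ℝ) :
    inner ℝ (!₂[x, y, z] : E3) (!₂[x', y', z'] : E3) = x * x' + y * y' + z * z' := by
  rw [PiLp.inner_apply, Fin.sum_univ_three]
  simp
  ring

theorem norm3 (x y z : ℝ) (h : x ^ 2 + y ^ 2 + z ^ 2 = 1) : ‖(!₂[x, y, z] : E3)‖ = 1 := by
  have h1 : ‖(!₂[x, y, z] : E3)‖ ^ 2 = 1 := by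
    rw [← real_inner_self_eq_norm_sq, inner3]
    linarith
  have h2 : 0 ≤ ‖(!₂[x, y, z] : E3)‖ := norm_nonneg _
  nlinarith

/-- The parameters of a unit vector. -/
theorem params (n : E3) (hn : ‖n‖ = 1) : ∃ s t r : ℝ, s ^ 2 + t ^ 2 + r ^ 2 = 1 ∧
    n = !₂[-2 * r * s, 2 * r * t, s ^ 2 + t ^ 2 - r ^ 2] := by
  have hsq : (n 0) ^ 2 + (n 1) ^ 2 + (n 2) ^ 2 = 1 := by
    have h := EuclideanSpace.norm_sq_eq n
    rw [hn, Fin.sum_univ_three] at h
    simp only [Real.norm_eq_abs, sq_abs] at h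
    linarith
  have hext : ∀ x y z : ℝ, n 0 = x → n 1 = y → n 2 = z → n = !₂[x, y, z] := by
    intro x y z hx hy hz
    ext i
    fin_cases i
    · simpa using hx
    · simpa using hy
    · simpa using hz
  have h2 : n 2 ≤ 1 := by nlinarith [sq_nonneg (n 0), sq_nonneg (n 1)]
  rcases h2.eq_or_lt with h3 | h3
  · refine ⟨1, 0, 0, by norm_num, hext _ _ _ ?_ ?_ ?_⟩
    · rw [h3] at hsq
      nlinarith [sq_nonneg (n 0), sq_nonneg (n 1)]
    · rw [h3] at hsq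
      nlinarith [sq_nonneg (n 0), sq_nonneg (n 1)]
    · rw [h3]; norm_num
  · have hr : 0 < Real.sqrt ((1 - n 2) / 2) := Real.sqrt_pos.2 (by linarith)
    set r := Real.sqrt ((1 - n 2) / 2) with hrd
    have hr2 : r ^ 2 = (1 - n 2) / 2 := Real.sq_sqrt (by linarith)
    have hst : (-(n 0) / (2 * r)) ^ 2 + (n 1 / (2 * r)) ^ 2 = (1 + n 2) / 2 := by
      have h4 : (-(n 0) / (2 * r)) ^ 2 + (n 1 / (2 * r)) ^ 2 =
          ((n 0) ^ 2 + (n 1) ^ 2) / (4 * r ^ 2) := by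
        field_simp
        ring
      rw [h4, hr2, div_eq_iff (by linarith)]
      nlinarith
    refine ⟨-(n 0) / (2 * r), n 1 / (2 * r), r, ?_, hext _ _ _ ?_ ?_ ?_⟩
    · rw [hst, hr2]; ring
    · field_simp
    · field_simp
    · rw [hst, hr2]; ring

theorem bl_inner {u : ℂ → ℝ} {a b : ℂ → ℂ} (h : Dev u a b) (z : ℂ) (x y t : ℝ) :
    inner ℝ (Bl a b z) (!₂[x, y, t] : E3) * (‖a z‖ ^ 2 + ‖b z‖ ^ 2) =
      2 * (b z * (starRingEnd ℂ) (a z)).re * x + 2 * (b z * (starRingEnd ℂ) (a z)).im * y +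
        (‖a z‖ ^ 2 - ‖b z‖ ^ 2) * t := by
  unfold Bl
  rw [real_inner_smul_left, inner3]
  have := (dev_pos h z).ne'
  field_simp

/-- The rotated pair. -/
theorem rot_dev {u : ℂ → ℝ} {a b : ℂ → ℂ} (h : Dev u a b) (al : ℂ) (r : ℝ)
    (hr : ‖al‖ ^ 2 + r ^ 2 = 1) :
    Dev u (fun z => -(r : ℂ) * b z + (starRingEnd ℂ) al * a z)
      (fun z => al * b z + (r : ℂ) * a z) := by
  have hal : al * (starRingEnd ℂ) al = ((‖al‖ ^ 2 : ℝ) : ℂ) := by
    rw [Complex.mul_conj, Complex.normSq_eq_norm_sq]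
  have hr' : ((‖al‖ ^ 2 : ℝ) : ℂ) + (r : ℂ) ^ 2 = 1 := by exact_mod_cast hr
  refine ⟨?_, ?_, ?_, ?_⟩
  · exact (h.db.const_mul _).add (h.da.const_mul _)
  · exact (h.db.const_mul _).add (h.da.const_mul _)
  · intro z
    have ha := h.da z
    have hb := h.db z
    have d1 : deriv (fun z => -(r : ℂ) * b z + (starRingEnd ℂ) al * a z) z =
        -(r : ℂ) * deriv b z + (starRingEnd ℂ) al * deriv a z := by
      rw [deriv_fun_add (hb.const_mul _) (ha.const_mul _), deriv_const_mul _ hb,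
        deriv_const_mul _ ha]
    have d2 : deriv (fun z => al * b z + (r : ℂ) * a z) z =
        al * deriv b z + (r : ℂ) * deriv a z := by
      rw [deriv_fun_add (hb.const_mul _) (ha.const_mul _), deriv_const_mul _ hb,
        deriv_const_mul _ ha]
    rw [d1, d2]
    have hw := h.wr z
    have : (-(r : ℂ) * b z + (starRingEnd ℂ) al * a z) * (al * deriv b z + (r : ℂ) * deriv a z) -
        (-(r : ℂ) * deriv b z + (starRingEnd ℂ) al * deriv a z) * (al * b z + (r : ℂ) * a z) =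
        (al * (starRingEnd ℂ) al + (r : ℂ) ^ 2) * (a z * deriv b z - deriv a z * b z) := by ring
    rw [this, hw, hal, hr', mul_one]
  · intro z
    rw [← h.nm z]
    have e : (‖-(r : ℂ) * b z + (starRingEnd ℂ) al * a z‖ ^ 2 +
        ‖al * b z + (r : ℂ) * a z‖ ^ 2) =
        (‖al‖ ^ 2 + r ^ 2) * (‖a z‖ ^ 2 + ‖b z‖ ^ 2) := by
      simp only [norm_sq_re_im, Complex.add_re, Complex.add_im, Complex.mul_re, Complex.mul_im,
        Complex.neg_re, Complex.neg_im, Complex.ofReal_re, Complex.ofReal_im, Complex.conj_re,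
        Complex.conj_im]
      ring
    rw [e, hr, one_mul]

/-- DP-8. -/
theorem sframe : S_FRAME := by
  intro u a₀ b₀ h n hn
  obtain ⟨s, t, r, h1, h2⟩ := params n hn
  have hal : ‖(⟨s, t⟩ : ℂ)‖ ^ 2 + r ^ 2 = 1 := by rw [norm_sq_re_im]; exact h1
  have h1' : s ^ 2 = 1 - t ^ 2 - r ^ 2 := by linarith
  refine ⟨!₂[s ^ 2 - t ^ 2 - r ^ 2, -(2 * s * t), 2 * s * r],
    !₂[2 * s * t, s ^ 2 - t ^ 2 + r ^ 2, 2 * t * r], _, _, rot_dev h ⟨s, t⟩ r hal, ?_, ?_⟩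
  · rw [h2]
    refine ⟨norm3 _ _ _ ?_, norm3 _ _ _ ?_, norm3 _ _ _ ?_, ?_, ?_, ?_⟩
    · have : (s ^ 2 - t ^ 2 - r ^ 2) ^ 2 + (-(2 * s * t)) ^ 2 + (2 * s * r) ^ 2 =
        (s ^ 2 + t ^ 2 + r ^ 2) ^ 2 := by ring
      rw [this, h1]; norm_num
    · have : (2 * s * t) ^ 2 + (s ^ 2 - t ^ 2 + r ^ 2) ^ 2 + (2 * t * r) ^ 2 =
        (s ^ 2 + t ^ 2 + r ^ 2) ^ 2 := by ring
      rw [this, h1]; norm_num
    · have : (-2 * r * s) ^ 2 + (2 * r * t) ^ 2 + (s ^ 2 + t ^ 2 - r ^ 2) ^ 2 =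
        (s ^ 2 + t ^ 2 + r ^ 2) ^ 2 := by ring
      rw [this, h1]; norm_num
    · rw [inner3]; ring
    · rw [inner3]; ring
    · rw [inner3]; ring
  · intro z
    rw [h2]
    have hN : ‖-(r : ℂ) * b₀ z + (starRingEnd ℂ) (⟨s, t⟩ : ℂ) * a₀ z‖ ^ 2 +
        ‖(⟨s, t⟩ : ℂ) * b₀ z + (r : ℂ) * a₀ z‖ ^ 2 = ‖a₀ z‖ ^ 2 + ‖b₀ z‖ ^ 2 := by
      rw [(rot_dev h ⟨s, t⟩ r hal).nm z, h.nm z]
    refine ⟨?_, ?_, ?_⟩
    · simp only []
      rw [hN, bl_inner h]
      simp only [norm_sq_re_im, Complex.add_re, Complex.add_im, Complex.mul_re, Complex.mul_im,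
        Complex.neg_re, Complex.neg_im, Complex.ofReal_re, Complex.ofReal_im, Complex.conj_re,
        Complex.conj_im, map_add, map_mul, map_neg]
      ring
    · simp only []
      rw [hN, bl_inner h]
      simp only [norm_sq_re_im, Complex.add_re, Complex.add_im, Complex.mul_re, Complex.mul_im,
        Complex.neg_re, Complex.neg_im, Complex.ofReal_re, Complex.ofReal_im, Complex.conj_re,
        Complex.conj_im, map_add, map_mul, map_neg]
      ring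
    · simp only []
      rw [hN, bl_inner h]
      simp only [norm_sq_re_im, Complex.add_re, Complex.add_im, Complex.mul_re, Complex.mul_im,
        Complex.neg_re, Complex.neg_im, Complex.ofReal_re, Complex.ofReal_im, Complex.conj_re,
        Complex.conj_im, map_add, map_mul, map_neg]
      ring

end Pool.Agent.Q208.DP
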