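import Pool.Agent.Q208.DP.TH

/-!
# Orthonormal frames of three dimensional space
-/

namespace Pool.Agent.Q208.DP

open Pool.Agent.Q61.DP Set

theorem on_sum {e1 e2 n : E3} (h : ON e1 e2 n) (p : E3) :
    p = (inner ℝ p e1) • e1 + (inner ℝ p e2) • e2 + (inner ℝ p n) • n := by
  obtain ⟨h1, h2, h3, h4, h5, h6⟩ := h
  have hv : Orthonormal ℝ ![e1, e2, n] := by
    constructor
    · intro i
      fin_cases i <;> simp [h1, h2, h3]
    · intro i j hij
      fin_cases i <;> fin_cases j <;> first | exact absurd rfl hij | skip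
      · simpa using h4
      · simpa using h5
      · simpa [real_inner_comm] using h4
      · simpa using h6
      · simpa [real_inner_comm] using h5
      · simpa [real_inner_comm] using h6
  have hcard : Fintype.card (Fin 3) = Module.finrank ℝ E3 := by simp [E3]
  let B := basisOfOrthonormalOfCardEqFinrank hv hcard
  have hB : ⇑B = ![e1, e2, n] := coe_basisOfOrthonormalOfCardEqFinrank hv hcard
  have hB2 : Orthonormal ℝ B := by rw [hB]; exact hv
  let O := B.toOrthonormalBasis hB2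
  have hO : ⇑O = ![e1, e2, n] := by
    rw [← hB]
    exact B.coe_toOrthonormalBasis hB2
  have := O.sum_repr' p
  rw [Fin.sum_univ_three, hO] at this
  simp only [Matrix.cons_val_zero, Matrix.cons_val_one, Matrix.cons_val] at this
  rw [real_inner_comm e1 p, real_inner_comm e2 p, real_inner_comm n p]
  exact this.symm

theorem on_ext {e1 e2 n : E3} (h : ON e1 e2 n) {p q : E3} (h1 : inner ℝ p e1 = inner ℝ q e1)
    (h2 : inner ℝ p e2 = inner ℝ q e2) (h3 : inner ℝ p n = inner ℝ q n) : p = q := by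
  rw [on_sum h p, on_sum h q, h1, h2, h3]

theorem on_inner {e1 e2 n : E3} (h : ON e1 e2 n) (x y z : ℝ) :
    inner ℝ (x • e1 + y • e2 + z • n) e1 = x ∧ inner ℝ (x • e1 + y • e2 + z • n) e2 = y ∧
      inner ℝ (x • e1 + y • e2 + z • n) n = z := by
  obtain ⟨h1, h2, h3, h4, h5, h6⟩ := h
  have h4' : inner ℝ e2 e1 = (0:ℝ) := by rw [real_inner_comm]; exact h4
  have h5' : inner ℝ n e1 = (0:ℝ) := by rw [real_inner_comm]; exact h5
  have h6' : inner ℝ n e2 = (0:ℝ) := by rw [real_inner_comm]; exact h6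
  refine ⟨?_, ?_, ?_⟩ <;>
    simp [inner_add_left, real_inner_smul_left, h1, h2, h3, h4, h5, h6, h4', h5', h6']

theorem on_norm_sq {e1 e2 n : E3} (h : ON e1 e2 n) (p : E3) :
    ‖p‖ ^ 2 = (inner ℝ p e1) ^ 2 + (inner ℝ p e2) ^ 2 + (inner ℝ p n) ^ 2 := by
  rw [← real_inner_self_eq_norm_sq]
  conv_lhs => rw [on_sum h p]
  obtain ⟨i1, i2, i3⟩ := on_inner h (inner ℝ p e1) (inner ℝ p e2) (inner ℝ p n)
  rw [inner_add_right, inner_add_right, real_inner_smul_right, real_inner_smul_right,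
    real_inner_smul_right, i1, i2, i3]
  ring

theorem sg_inner {e1 e2 n : E3} (h : ON e1 e2 n) (w : ℂ) :
    inner ℝ (sg e1 e2 n w) e1 = 2 * w.re / (1 + ‖w‖ ^ 2) ∧
      inner ℝ (sg e1 e2 n w) e2 = 2 * w.im / (1 + ‖w‖ ^ 2) ∧
      inner ℝ (sg e1 e2 n w) n = (1 - ‖w‖ ^ 2) / (1 + ‖w‖ ^ 2) := by
  obtain ⟨i1, i2, i3⟩ := on_inner h (2 * w.re) (2 * w.im) (1 - ‖w‖ ^ 2)
  unfold sg
  refine ⟨?_, ?_, ?_⟩
  · rw [real_inner_smul_left, i1]; ring
  · rw [real_inner_smul_left, i2]; ring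
  · rw [real_inner_smul_left, i3]; ring

theorem sg_norm {e1 e2 n : E3} (h : ON e1 e2 n) (w : ℂ) : ‖sg e1 e2 n w‖ = 1 := by
  have h1 : ‖sg e1 e2 n w‖ ^ 2 = 1 := by
    obtain ⟨i1, i2, i3⟩ := sg_inner h w
    rw [on_norm_sq h, i1, i2, i3]
    have hw : ‖w‖ ^ 2 = w.re ^ 2 + w.im ^ 2 := by
      rw [← Complex.normSq_eq_norm_sq, Complex.normSq_apply]; ring
    have : (1 + ‖w‖ ^ 2) ≠ 0 := by positivity
    field_simp
    rw [hw]
    ring
  have h2 : 0 ≤ ‖sg e1 e2 n w‖ := norm_nonneg _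
  nlinarith

theorem eq_neg_of_inner {n p : E3} (hn : ‖n‖ = 1) (hp : ‖p‖ = 1) (h : inner ℝ p n = (-1:ℝ)) :
    p = -n := by
  have : ‖p + n‖ ^ 2 = 0 := by
    rw [norm_add_sq_real, hp, hn, h]; norm_num
  have h2 : p + n = 0 := by
    rw [← norm_eq_zero]
    exact pow_eq_zero_iff (two_ne_zero) |>.1 this
  exact eq_neg_of_add_eq_zero_left h2

end Pool.Agent.Q208.DP
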