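import Pool.Agent.Q208.DP.Fr0

/-!
# DP-9: stereographic projection in a frame
-/

namespace Pool.Agent.Q208.DP

open Pool.Agent.Q61.DP Set

theorem norm_sq_re_im (w : ℂ) : ‖w‖ ^ 2 = w.re ^ 2 + w.im ^ 2 := by
  rw [← Complex.normSq_eq_norm_sq, Complex.normSq_apply]; ring

theorem angle_unit {p n : E3} (hp : ‖p‖ = 1) (hn : ‖n‖ = 1) :
    InnerProductGeometry.angle p n = Real.arccos (inner ℝ p n) := by
  unfold InnerProductGeometry.angle
  rw [hp, hn]
  norm_num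

theorem sg_angle {e1 e2 n : E3} (h : ON e1 e2 n) (w : ℂ) :
    InnerProductGeometry.angle (sg e1 e2 n w) n = 2 * Real.arctan ‖w‖ := by
  rw [angle_unit (sg_norm h w) h.2.2.1, (sg_inner h w).2.2, arccos_two_arctan _ (norm_nonneg _)]

theorem st_sg {e1 e2 n : E3} (h : ON e1 e2 n) (w : ℂ) : st e1 e2 n (sg e1 e2 n w) = w := by
  obtain ⟨i1, i2, i3⟩ := sg_inner h w
  unfold st
  rw [i1, i2, i3]
  have hD : (1 + ‖w‖ ^ 2) ≠ 0 := by positivity
  have h1 : (1 + (1 - ‖w‖ ^ 2) / (1 + ‖w‖ ^ 2)) = 2 / (1 + ‖w‖ ^ 2) := by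
    field_simp
    ring
  rw [h1]
  have hDc : ((1 + ‖w‖ ^ 2 : ℝ) : ℂ) ≠ 0 := by exact_mod_cast hD
  rw [Complex.ofReal_div, Complex.ofReal_div, Complex.ofReal_div, Complex.ofReal_mul,
    Complex.ofReal_mul]
  rw [show ((2:ℝ):ℂ) = 2 from by norm_num]
  field_simp
  exact Complex.re_add_im w

theorem one_add_inner_ne {n p : E3} (hn : ‖n‖ = 1) (hp : ‖p‖ = 1) (h : p ≠ -n) :
    0 < 1 + inner ℝ p n := by
  have h1 : -1 ≤ inner ℝ p n := by
    have := abs_le.1 (abs_real_inner_le_norm p n)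
    rw [hp, hn] at this
    linarith [this.1]
  rcases h1.eq_or_lt with h2 | h2
  · exact absurd (eq_neg_of_inner hn hp h2.symm) h
  · linarith

theorem st_re_im {e1 e2 n p : E3} :
    (st e1 e2 n p).re = inner ℝ p e1 / (1 + inner ℝ p n) ∧
      (st e1 e2 n p).im = inner ℝ p e2 / (1 + inner ℝ p n) := by
  unfold st
  constructor
  · rw [Complex.div_ofReal_re]; simp
  · rw [Complex.div_ofReal_im]; simp

theorem sg_st {e1 e2 n p : E3} (h : ON e1 e2 n) (hp : ‖p‖ = 1) (hpn : p ≠ -n) :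
    sg e1 e2 n (st e1 e2 n p) = p := by
  have hpos := one_add_inner_ne h.2.2.1 hp hpn
  obtain ⟨r1, r2⟩ := st_re_im (e1 := e1) (e2 := e2) (n := n) (p := p)
  have hsum := on_norm_sq h p
  rw [hp] at hsum
  have hD : 1 + ‖st e1 e2 n p‖ ^ 2 = 2 / (1 + inner ℝ p n) := by
    rw [norm_sq_re_im, r1, r2]
    field_simp
    nlinarith
  have hN : 1 - ‖st e1 e2 n p‖ ^ 2 = 2 * inner ℝ p n / (1 + inner ℝ p n) := by
    have h3 : 1 - ‖st e1 e2 n p‖ ^ 2 = 2 - (1 + ‖st e1 e2 n p‖ ^ 2) := by ring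
    rw [h3, hD]
    field_simp
    ring
  obtain ⟨i1, i2, i3⟩ := sg_inner h (st e1 e2 n p)
  apply on_ext h
  · rw [i1, hD, r1]; field_simp
  · rw [i2, hD, r2]; field_simp
  · rw [i3, hD, hN]; field_simp

theorem mul_conj_re_im (a b w : ℂ) (h : b * (starRingEnd ℂ) a = w * (a * (starRingEnd ℂ) a))
    (ha : a ≠ 0) : b = w * a := by
  have h2 : (starRingEnd ℂ) a ≠ 0 := by simpa using ha
  have : b * (starRingEnd ℂ) a = (w * a) * (starRingEnd ℂ) a := by rw [h]; ring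
  exact mul_right_cancel₀ h2 this

theorem sig_last {e1 e2 n : E3} (h : ON e1 e2 n) {u : ℂ → ℝ} {a b : ℂ → ℂ} {P : ℂ → E3}
    (hd : Dev u a b) (hF : FR P e1 e2 n a b) (z w : ℂ) :
    P z = sg e1 e2 n w ↔ b z = w * a z := by
  obtain ⟨i1, i2, i3⟩ := sg_inner h w
  obtain ⟨f1, f2, f3⟩ := hF.2 z
  have hN := dev_pos hd z
  have hD : 0 < 1 + ‖w‖ ^ 2 := by positivity
  constructor
  · intro hP
    rw [hP, i1] at f1
    rw [hP, i2] at f2
    rw [hP, i3] at f3
    have hb : ‖b z‖ ^ 2 = ‖w‖ ^ 2 * ‖a z‖ ^ 2 := by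
      field_simp at f3
      linarith
    have hNa : ‖a z‖ ^ 2 + ‖b z‖ ^ 2 = ‖a z‖ ^ 2 * (1 + ‖w‖ ^ 2) := by rw [hb]; ring
    have ha : a z ≠ 0 := by
      intro ha
      rw [hNa, ha] at hN
      simp at hN
    apply mul_conj_re_im _ _ _ _ ha
    rw [Complex.mul_conj, Complex.normSq_eq_norm_sq]
    rw [hNa] at f1 f2
    apply Complex.ext
    · rw [Complex.re_mul_ofReal]
      field_simp at f1
      linarith
    · rw [Complex.im_mul_ofReal]
      field_simp at f2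
      linarith
  · intro hb
    have hbn : ‖b z‖ ^ 2 = ‖w‖ ^ 2 * ‖a z‖ ^ 2 := by rw [hb, norm_mul]; ring
    have hNa : ‖a z‖ ^ 2 + ‖b z‖ ^ 2 = ‖a z‖ ^ 2 * (1 + ‖w‖ ^ 2) := by rw [hbn]; ring
    have ha : a z ≠ 0 := by
      intro ha
      rw [hNa, ha] at hN
      simp at hN
    have han : 0 < ‖a z‖ ^ 2 := by have := norm_pos_iff.2 ha; positivity
    have hbc : b z * (starRingEnd ℂ) (a z) = w * ((‖a z‖ ^ 2 : ℝ) : ℂ) := by
      rw [hb, mul_assoc, Complex.mul_conj, Complex.normSq_eq_norm_sq]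
    rw [hbc, Complex.re_mul_ofReal, hNa] at f1
    rw [hbc, Complex.im_mul_ofReal, hNa] at f2
    rw [hNa, hbn] at f3
    apply on_ext h
    · rw [i1, eq_div_iff hD.ne']
      have : ‖a z‖ ^ 2 * (inner ℝ (P z) e1 * (1 + ‖w‖ ^ 2)) = ‖a z‖ ^ 2 * (2 * w.re) := by
        linarith
      exact mul_left_cancel₀ han.ne' this
    · rw [i2, eq_div_iff hD.ne']
      have : ‖a z‖ ^ 2 * (inner ℝ (P z) e2 * (1 + ‖w‖ ^ 2)) = ‖a z‖ ^ 2 * (2 * w.im) := by
        linarith
      exact mul_left_cancel₀ han.ne' this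
    · rw [i3, eq_div_iff hD.ne']
      have : ‖a z‖ ^ 2 * (inner ℝ (P z) n * (1 + ‖w‖ ^ 2)) = ‖a z‖ ^ 2 * (1 - ‖w‖ ^ 2) := by
        linarith
      exact mul_left_cancel₀ han.ne' this

theorem inner_fr {e1 e2 n : E3} {u : ℂ → ℝ} {a b : ℂ → ℂ} {P : ℂ → E3}
    (hd : Dev u a b) (hF : FR P e1 e2 n a b) (z : ℂ) :
    inner ℝ (P z) n = (‖a z‖ ^ 2 - ‖b z‖ ^ 2) / (‖a z‖ ^ 2 + ‖b z‖ ^ 2) := by
  rw [eq_div_iff (dev_pos hd z).ne']
  exact (hF.2 z).2.2

theorem fr_antipode {e1 e2 n : E3} {u : ℂ → ℝ} {a b : ℂ → ℂ} {P : ℂ → E3}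
    (hd : Dev u a b) (hF : FR P e1 e2 n a b) (hP : ∀ z, ‖P z‖ = 1) (z : ℂ) :
    P z = -n ↔ a z = 0 := by
  have hn : ‖n‖ = 1 := hF.1.2.2.1
  have hi := inner_fr hd hF z
  have hN := dev_pos hd z
  constructor
  · intro h
    rw [h, inner_neg_left, real_inner_self_eq_norm_sq, hn, eq_div_iff hN.ne'] at hi
    have : ‖a z‖ ^ 2 = 0 := by linarith
    exact norm_eq_zero.1 (pow_eq_zero_iff (two_ne_zero) |>.1 this)
  · intro h
    apply eq_neg_of_inner hn (hP z)
    rw [hi]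
    rw [h, norm_zero] at hN ⊢
    have : ‖b z‖ ^ 2 ≠ 0 := by
      intro h0
      rw [h0] at hN
      simp at hN
    field_simp
    ring

/-- DP-9. -/
theorem ssig : S_SIG := by
  intro e1 e2 n h
  refine ⟨?_, fun w => ⟨sg_norm h w, (sg_inner h w).2.2, sg_angle h w, st_sg h w⟩,
    fun p hp hpn => sg_st h hp hpn, ?_, ?_⟩
  · unfold sg
    have h1 : Continuous fun w : ℂ => (1 + ‖w‖ ^ 2)⁻¹ := by
      refine Continuous.inv₀ (by fun_prop) (fun w => by positivity)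
    have h2 : Continuous fun w : ℂ => (2 * w.re) • e1 + (2 * w.im) • e2 + (1 - ‖w‖ ^ 2) • n := by
      refine Continuous.add (Continuous.add ?_ ?_) ?_
      · exact (continuous_const.mul Complex.continuous_re).smul continuous_const
      · exact (continuous_const.mul Complex.continuous_im).smul continuous_const
      · have c0 : Continuous fun w : ℂ => 1 - ‖w‖ ^ 2 := by fun_prop
        exact c0.smul continuous_const
    exact h1.smul h2
  · unfold st
    have c1 : Continuous fun p : E3 => ((inner ℝ p e1 : ℝ) : ℂ) :=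
      Complex.continuous_ofReal.comp (continuous_id.inner continuous_const)
    have c2 : Continuous fun p : E3 => ((inner ℝ p e2 : ℝ) : ℂ) :=
      Complex.continuous_ofReal.comp (continuous_id.inner continuous_const)
    have c3 : Continuous fun p : E3 => ((1 + inner ℝ p n : ℝ) : ℂ) :=
      Complex.continuous_ofReal.comp (continuous_const.add (continuous_id.inner continuous_const))
    refine ContinuousOn.div (c1.add (c2.mul continuous_const)).continuousOn c3.continuousOn ?_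
    rintro p ⟨hp, hpn⟩
    have := one_add_inner_ne h.2.2.1 hp hpn
    exact_mod_cast this.ne'
  · intro u a b P hd hF hP
    refine ⟨fun z w => sig_last h hd hF z w, fun z => fr_antipode hd hF hP z, fun z => ?_⟩
    rw [angle_unit (hP z) h.2.2.1, inner_fr hd hF z]
    rfl

end Pool.Agent.Q208.DP
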