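import Pool.Agent.Q61.DP.Stm

/-!
# DP-11: the spherical distance in terms of the developing pair
-/

namespace Pool.Agent.Q208.DP

open Pool.Agent.Q61.DP Set

theorem arccos_two_arctan (t : ℝ) (ht : 0 ≤ t) :
    Real.arccos ((1 - t ^ 2) / (1 + t ^ 2)) = 2 * Real.arctan t := by
  have h1 : Real.cos (2 * Real.arctan t) = (1 - t ^ 2) / (1 + t ^ 2) := by
    rw [Real.cos_two_mul, Real.cos_sq_arctan]
    have : (1 + t ^ 2) ≠ 0 := by positivity
    field_simp
    ring
  rw [← h1]
  apply Real.arccos_cos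
  · have := Real.arctan_nonneg.2 ht
    linarith
  · have := (Real.arctan_lt_pi_div_two t).le
    linarith

theorem dev_pos {u : ℂ → ℝ} {a b : ℂ → ℂ} (h : Dev u a b) (z : ℂ) :
    0 < ‖a z‖ ^ 2 + ‖b z‖ ^ 2 := by
  rw [h.nm]
  positivity

theorem th_of_ne {a b : ℂ → ℂ} {z : ℂ} (h : a z ≠ 0) :
    th a b z = 2 * Real.arctan (‖b z‖ / ‖a z‖) := by
  rw [← arccos_two_arctan _ (by positivity)]
  unfold th
  congr 1
  have : 0 < ‖a z‖ := norm_pos_iff.2 h
  field_simp

/-- DP-11. -/
theorem sth : S_TH := by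
  intro u a b h
  refine ⟨fun z hz => th_of_ne hz, ?_, ?_, ?_⟩
  · intro z hz
    have hb : b z ≠ 0 := by
      intro hb
      have := dev_pos h z
      rw [hz, hb] at this
      simp at this
    refine ⟨hb, ?_⟩
    unfold th
    rw [hz]
    have : 0 < ‖b z‖ := norm_pos_iff.2 hb
    have h2 : (‖(0:ℂ)‖ ^ 2 - ‖b z‖ ^ 2) / (‖(0:ℂ)‖ ^ 2 + ‖b z‖ ^ 2) = -1 := by
      rw [norm_zero]
      field_simp
      ring
    rw [h2, Real.arccos_neg_one]
  · unfold th
    refine Real.continuous_arccos.comp ?_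
    have ha := h.da.continuous
    have hb := h.db.continuous
    refine Continuous.div (by fun_prop) (by fun_prop) (fun z => (dev_pos h z).ne')
  · have hu : u = fun z => - Real.log ((‖a z‖ ^ 2 + ‖b z‖ ^ 2) / 2) := by
      ext z
      rw [h.nm, mul_div_cancel_left₀ _ (two_ne_zero), Real.log_exp, neg_neg]
    rw [hu]
    have ha := h.da.continuous
    have hb := h.db.continuous
    refine Continuous.neg (Continuous.log (by fun_prop) ?_)
    intro z
    have := dev_pos h z
    positivity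

end Pool.Agent.Q208.DP
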